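import Mathlib

set_option autoImplicit false

namespace Pool.Agent.R835.PF

open Matrix Filter Topology

attribute [local instance] Matrix.linftyOpNormedRing Matrix.linftyOpNormedAlgebra

/-- Growth bound: if `A w ≥ s w` for a positive vector `w`, the spectral radius is at least `s`. -/
lemma le_spectralRadius {n : Type*} [Fintype n] [DecidableEq n] [Nonempty n]
    (A : Matrix n n ℝ) (hA : ∀ i j, 0 ≤ A i j) (w : n → ℝ) (hw : ∀ i, 0 < w i) (s : ℝ)
    (hs : 0 ≤ s) (h : ∀ i, s * w i ≤ (A *ᵥ w) i) :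
    ENNReal.ofReal s ≤ spectralRadius ℂ (A.map ((↑) : ℝ → ℂ)) := by
  set B : Matrix n n ℂ := A.map ((↑) : ℝ → ℂ) with hB
  have hgrow : ∀ m : ℕ, ∀ i, s ^ m * w i ≤ ((A ^ m) *ᵥ w) i := by
    intro m
    induction m with
    | zero => intro i; simp
    | succ m ih =>
      intro i
      have hmm : (A ^ (m + 1)) *ᵥ w = A *ᵥ ((A ^ m) *ᵥ w) := by
        rw [Matrix.mulVec_mulVec, ← pow_succ']
      rw [hmm]
      calc s ^ (m + 1) * w i = s ^ m * (s * w i) := by ring
        _ ≤ s ^ m * (A *ᵥ w) i := mul_le_mul_of_nonneg_left (h i) (pow_nonneg hs m)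
        _ = ∑ j, A i j * (s ^ m * w j) := by
            simp only [Matrix.mulVec, dotProduct, Finset.mul_sum]
            exact Finset.sum_congr rfl fun j _ => by ring
        _ ≤ ∑ j, A i j * ((A ^ m) *ᵥ w) j :=
            Finset.sum_le_sum fun j _ => mul_le_mul_of_nonneg_left (ih j) (hA i j)
        _ = (A *ᵥ (A ^ m) *ᵥ w) i := rfl
  have hnorm : ∀ m : ℕ, s ^ m ≤ ‖B ^ m‖ := by
    intro m
    obtain ⟨i, -, hi⟩ := Finset.exists_max_image Finset.univ w Finset.univ_nonempty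
    have hBm : B ^ m = (A ^ m).map ((↑) : ℝ → ℂ) := by
      rw [hB]
      exact (Matrix.map_pow A (Complex.ofRealHom) m).symm
    have hv : (B ^ m) *ᵥ (fun j => (w j : ℂ)) = fun j => (((A ^ m) *ᵥ w) j : ℂ) := by
      rw [hBm]
      ext j
      simp [Matrix.mulVec, dotProduct]
    have h1 : ‖(B ^ m) *ᵥ (fun j => (w j : ℂ))‖ ≤ ‖B ^ m‖ * ‖(fun j => (w j : ℂ))‖ :=
      Matrix.linfty_opNorm_mulVec _ _
    have h2 : ‖(fun j => (w j : ℂ))‖ ≤ w i := by
      rw [pi_norm_le_iff_of_nonneg (hw i).le]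
      intro j
      rw [Complex.norm_real, Real.norm_eq_abs, abs_of_pos (hw j)]
      exact hi j (Finset.mem_univ _)
    have h3 : s ^ m * w i ≤ ‖(B ^ m) *ᵥ (fun j => (w j : ℂ))‖ := by
      rw [hv]
      refine (hgrow m i).trans ((le_abs_self _).trans ?_)
      have := norm_le_pi_norm (fun j => (((A ^ m) *ᵥ w) j : ℂ)) i
      rwa [Complex.norm_real, Real.norm_eq_abs] at this
    have h4 : s ^ m * w i ≤ ‖B ^ m‖ * w i :=
      h3.trans (h1.trans (mul_le_mul_of_nonneg_left h2 (norm_nonneg _)))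
    exact le_of_mul_le_mul_right h4 (hw i)
  have hlim := spectrum.pow_norm_pow_one_div_tendsto_nhds_spectralRadius B
  refine ge_of_tendsto hlim ?_
  filter_upwards [eventually_gt_atTop 0] with m hm
  apply ENNReal.ofReal_le_ofReal
  have hm' : (0 : ℝ) < m := by exact_mod_cast hm
  calc s = (s ^ m) ^ (1 / m : ℝ) := by
        rw [← Real.rpow_natCast, ← Real.rpow_mul hs, mul_one_div_cancel hm'.ne', Real.rpow_one]
    _ ≤ ‖B ^ m‖ ^ (1 / m : ℝ) :=
        Real.rpow_le_rpow (pow_nonneg hs m) (hnorm m) (by positivity)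

/-- Part of Perron's theorem: the spectral radius of a primitive matrix is an eigenvalue. -/
theorem exists_eigenvector {n : Type*} [Fintype n] [DecidableEq n]
    (A : Matrix n n ℝ) (hA : A.IsPrimitive) (r : ℝ) (hr : 0 < r)
    (hsp : spectralRadius ℂ (A.map ((↑) : ℝ → ℂ)) = ENNReal.ofReal r) :
    ∃ v : n → ℝ, v ≠ 0 ∧ A *ᵥ v = r • v := by
  set B : Matrix n n ℂ := A.map ((↑) : ℝ → ℂ) with hB
  -- an eigenvalue of maximal modulus
  obtain ⟨z, hz, hzr⟩ : ∃ z ∈ spectrum ℂ B, ‖z‖ = r := by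
    have hne : (spectrum ℂ B).Nonempty := by
      by_contra hcon
      rw [Set.not_nonempty_iff_eq_empty] at hcon
      have : spectralRadius ℂ B = 0 := by
        simp [spectralRadius, hcon]
      rw [this] at hsp
      have := ENNReal.ofReal_pos.2 hr
      rw [← hsp] at this
      exact lt_irrefl _ this
    obtain ⟨z, hz, hzr⟩ := spectrum.exists_nnnorm_eq_spectralRadius_of_nonempty hne
    refine ⟨z, hz, ?_⟩
    rw [hsp] at hzr
    have h1 : ENNReal.ofReal ‖z‖ = ENNReal.ofReal r := by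
      rw [← hzr, ofReal_norm]; rfl
    exact (ENNReal.ofReal_eq_ofReal_iff (norm_nonneg _) hr.le).1 h1
  -- an eigenvector
  obtain ⟨u, hu0, hu⟩ : ∃ u : n → ℂ, u ≠ 0 ∧ B *ᵥ u = z • u := by
    have h1 : z ∈ spectrum ℂ (Matrix.toLin' B) := by
      rwa [Matrix.spectrum_toLin']
    rw [← Module.End.hasEigenvalue_iff_mem_spectrum] at h1
    obtain ⟨u, hu⟩ := h1.exists_hasEigenvector
    refine ⟨u, hu.2, ?_⟩
    have := hu.apply_eq_smul
    rwa [Matrix.toLin'_apply] at this
  have hne : Nonempty n := by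
    by_contra hcon
    rw [not_nonempty_iff] at hcon
    exact hu0 (Subsingleton.elim _ _)
  set v : n → ℝ := fun i => ‖u i‖ with hv
  have hv0 : v ≠ 0 := by
    intro h
    apply hu0
    ext i
    have := congrFun h i
    simpa [hv] using this
  have hvn : ∀ i, 0 ≤ v i := fun i => norm_nonneg _
  have hge : ∀ i, r * v i ≤ (A *ᵥ v) i := by
    intro i
    have h1 := congrFun hu i
    have h2 : ‖(B *ᵥ u) i‖ = r * v i := by
      rw [h1, Pi.smul_apply, smul_eq_mul, norm_mul, hzr]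
    rw [← h2]
    refine (norm_sum_le _ _).trans ?_
    apply Finset.sum_le_sum
    intro j _
    have h3 : ‖B i j‖ = A i j := by
      rw [hB, Matrix.map_apply, Complex.norm_real, Real.norm_eq_abs, abs_of_nonneg (hA.nonneg i j)]
    have h4 : ‖B i j * u j‖ ≤ A i j * v j := by rw [norm_mul, h3]
    exact h4
  refine ⟨v, hv0, ?_⟩
  by_contra hcon
  obtain ⟨k, hk, hpos⟩ := hA.exists_pos_pow
  have posv : ∀ x : n → ℝ, (∀ i, 0 ≤ x i) → x ≠ 0 → ∀ i, 0 < ((A ^ k) *ᵥ x) i := by
    intro x hx hx0 i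
    obtain ⟨j, hj⟩ : ∃ j, x j ≠ 0 := by
      by_contra h
      push Not at h
      exact hx0 (funext h)
    have hj' : 0 < x j := lt_of_le_of_ne (hx j) (Ne.symm hj)
    apply Finset.sum_pos' (fun l _ => mul_nonneg (hpos i l).le (hx l))
    exact ⟨j, Finset.mem_univ _, mul_pos (hpos i j) hj'⟩
  set w := (A ^ k) *ᵥ v with hw
  have hwpos : ∀ i, 0 < w i := posv v hvn hv0
  have hd : ∀ i, 0 < (A *ᵥ w) i - r * w i := by
    have h1 := posv (A *ᵥ v - r • v) (fun i => by
      have := hge i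
      simp only [Pi.sub_apply, Pi.smul_apply, smul_eq_mul]
      linarith) (fun h => hcon (sub_eq_zero.1 h))
    intro i
    have h2 : (A ^ k) *ᵥ (A *ᵥ v - r • v) = A *ᵥ w - r • w := by
      rw [Matrix.mulVec_sub, Matrix.mulVec_smul, hw, Matrix.mulVec_mulVec, Matrix.mulVec_mulVec,
        ← pow_succ, ← pow_succ']
    have h3 := h1 i
    rw [h2] at h3
    simpa using h3
  -- a slightly larger factor
  obtain ⟨i0, -, hi0⟩ := Finset.exists_min_image Finset.univ
    (fun i => ((A *ᵥ w) i - r * w i) / w i) Finset.univ_nonempty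
  set e := ((A *ᵥ w) i0 - r * w i0) / w i0 with he
  have hepos : 0 < e := div_pos (hd i0) (hwpos i0)
  have hbig : ∀ i, (r + e) * w i ≤ (A *ᵥ w) i := by
    intro i
    have h1 : e ≤ ((A *ᵥ w) i - r * w i) / w i := hi0 i (Finset.mem_univ _)
    rw [le_div_iff₀ (hwpos i)] at h1
    linarith
  have h1 := le_spectralRadius A hA.nonneg w hwpos (r + e) (by linarith) hbig
  rw [hsp, ENNReal.ofReal_le_ofReal_iff hr.le] at h1
  linarith

end Pool.Agent.R835.PF
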